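import Pool.Agent.H23.DM.TargetsQ

/-!
# (QH) the moments of the orders between `2` and `12` over a family of boxes
-/

set_option autoImplicit false

open NumberField NumberField.InfinitePlace MeasureTheory Set Filter Complex
open scoped nonZeroDivisors ENNReal

namespace Pool.Agent.H86.DMQ.QH

open Pool.Agent.H25.HK Pool.Agent.H23.LB Pool.Agent.H23.LC
open Pool.Agent.H29.DW (PrG)
open Pool.Agent.H31.SW (PP dK)
open Pool.Agent.H31.SX (LK)
open Pool.Agent.H27.TM (Cls Sp1 InT cq)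
open Pool.Agent.H23.DM

/-- interpolation between the orders `2` and `12` -/
theorem interp {ι : Type*} (S : Finset ι) (x : ι → ℝ) (hx : ∀ q ∈ S, 0 ≤ x q) {p : ℝ}
    (h2 : 2 ≤ p) (h12 : p ≤ 12) : ∑ q ∈ S, x q ^ p ≤
      (∑ q ∈ S, x q ^ 2) ^ ((12 - p) / 10) * (∑ q ∈ S, x q ^ 12) ^ ((p - 2) / 10) := by
  set a : ℝ := (12 - p) / 10 with ha
  set b : ℝ := (p - 2) / 10 with hb
  have ha0 : 0 ≤ a := by rw [ha]; linarith
  have hb0 : 0 ≤ b := by rw [hb]; linarith
  have hab : a + b = 1 := by rw [ha, hb]; ring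
  have hp : p = 2 * a + 12 * b := by rw [ha, hb]; ring
  set A : ℝ := ∑ q ∈ S, x q ^ 2 with hA
  set P : ℝ := ∑ q ∈ S, x q ^ 12 with hP
  have hA0 : 0 ≤ A := Finset.sum_nonneg fun q hq => by have := hx q hq; positivity
  have hP0 : 0 ≤ P := Finset.sum_nonneg fun q hq => by have := hx q hq; positivity
  rcases hA0.eq_or_lt with h0 | hApos
  · have hz : ∀ q ∈ S, x q = 0 := by
      intro q hq
      have h1 := (Finset.sum_eq_zero_iff_of_nonneg fun q hq => by
        have := hx q hq; positivity).1 h0.symm q hq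
      exact pow_eq_zero_iff (by norm_num) |>.1 h1
    have hL : ∑ q ∈ S, x q ^ p = 0 := Finset.sum_eq_zero fun q hq => by
      rw [hz q hq, Real.zero_rpow (by linarith)]
    rw [hL]
    positivity
  · have hPpos : 0 < P := by
      obtain ⟨q, hq, hne⟩ : ∃ q ∈ S, x q ≠ 0 := by
        by_contra hcon
        push Not at hcon
        have : A = 0 := Finset.sum_eq_zero fun q hq => by rw [hcon q hq]; norm_num
        linarith
      have hq0 : 0 < x q := lt_of_le_of_ne (hx q hq) (Ne.symm hne)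
      exact Finset.sum_pos' (fun q hq => by have := hx q hq; positivity) ⟨q, hq, by positivity⟩
    have hterm : ∀ q ∈ S, x q ^ p ≤ A ^ a * P ^ b * (a * (x q ^ 2 / A) + b * (x q ^ 12 / P)) := by
      intro q hq
      have hq0 := hx q hq
      have h3 : x q ^ p ≤ (x q ^ 2) ^ a * (x q ^ 12) ^ b := by
        rcases hq0.eq_or_lt with h4 | h4
        · rw [← h4, Real.zero_rpow (by linarith)]
          positivity
        · rw [← Real.rpow_natCast (x q) 2, ← Real.rpow_natCast (x q) 12, ← Real.rpow_mul hq0,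
            ← Real.rpow_mul hq0, ← Real.rpow_add h4, hp]
          push_cast
          exact le_rfl
      have h5 := Real.geom_mean_le_arith_mean2_weighted ha0 hb0
        (show 0 ≤ x q ^ 2 / A by positivity) (show 0 ≤ x q ^ 12 / P by positivity) hab
      rw [Real.div_rpow (by positivity) hA0, Real.div_rpow (by positivity) hP0] at h5
      have h6 : (x q ^ 2) ^ a * (x q ^ 12) ^ b =
          A ^ a * P ^ b * ((x q ^ 2) ^ a / A ^ a * ((x q ^ 12) ^ b / P ^ b)) := by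
        have h7 : 0 < A ^ a := by positivity
        have h8 : 0 < P ^ b := by positivity
        field_simp
      rw [h6] at h3
      exact h3.trans (mul_le_mul_of_nonneg_left h5 (by positivity))
    calc ∑ q ∈ S, x q ^ p ≤ ∑ q ∈ S, A ^ a * P ^ b * (a * (x q ^ 2 / A) + b * (x q ^ 12 / P)) :=
          Finset.sum_le_sum hterm
      _ = A ^ a * P ^ b * (a * (A / A) + b * (P / P)) := by
          rw [← Finset.mul_sum, Finset.sum_add_distrib, ← Finset.mul_sum, ← Finset.mul_sum,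
            ← Finset.sum_div, ← Finset.sum_div]
      _ = A ^ a * P ^ b := by rw [div_self hApos.ne', div_self hPpos.ne', mul_one, mul_one, hab,
          mul_one]

theorem pf_QH (hQT : D_QT) (hTM : D_TM) : D_QH := by
  intro n hn
  obtain ⟨B₁, hB₁, h1⟩ := hQT n hn
  obtain ⟨B₂, hB₂, h2⟩ := hTM n hn
  refine ⟨B₁ + B₂, by positivity, fun ε hε hε1 => ?_⟩
  obtain ⟨C₁, hC₁, h3⟩ := h1 ε hε hε1
  obtain ⟨C₂, hC₂, h4⟩ := h2 ε hε hε1
  refine ⟨(1 + C₁) * (1 + C₂), by positivity, ?_⟩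
  intro K _ _ hK l k κ hlk hκ Y L hL H T S bl p hT hPr hin hsp hbl hp2 hp12
  have h5 := h3 K hK l k κ hlk hκ Y L hL H T S bl hT hPr hin hsp hbl
  have hT1 : ∀ v, 1 ≤ T v := fun v => (one_le_pow₀ (hT v).1).trans (hT v).2
  have h6 := h4 K hK l k hlk Y L hL T S hT1 hPr hin hsp
  have h7 := interp S (fun q => ‖L q.1 (1 / 2 + q.2 * I)‖) (fun q _ => norm_nonneg _) hp2 hp12
  set a : ℝ := (12 - p) / 10 with ha
  set b : ℝ := (p - 2) / 10 with hb
  have ha0 : 0 ≤ a := by rw [ha]; linarith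
  have hb0 : 0 ≤ b := by rw [hb]; linarith
  have hab : a + b = 1 := by rw [ha, hb]; ring
  -- positivity
  have hN1 : ∀ i : Ideal (𝓞 K), i ≠ ⊥ → 1 ≤ Nf K i := by
    intro i hi
    unfold Nf
    have h8 : Ideal.absNorm i ≠ 0 := fun h => hi (Ideal.absNorm_eq_zero_iff.1 h)
    exact_mod_cast Nat.one_le_iff_ne_zero.2 h8
  have hd : 1 ≤ dK K := by
    unfold dK
    have h8 : discr K ≠ 0 := discr_ne_zero K
    exact_mod_cast Int.one_le_abs h8
  have hNk := hN1 k hlk.k_ne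
  have hNl := hN1 l hlk.l_ne
  have hNr := hN1 k.radical fun h => hlk.k_ne (le_bot_iff.1 (Ideal.le_radical.trans h.le))
  have hNκ : 0 ≤ Nf K κ := by
    unfold Nf
    positivity
  have hPT : 1 ≤ PP T := by
    unfold PP
    calc (1 : ℝ) = ∏ _v : InfinitePlace K, (1 : ℝ) := by rw [Finset.prod_const_one]
      _ ≤ _ := Finset.prod_le_prod (fun _ _ => zero_le_one) fun v _ => one_le_pow₀ (hT1 v)
  have hPH : 0 ≤ PP H := by
    unfold PP
    exact Finset.prod_nonneg fun v _ => pow_nonneg (zero_le_one.trans (hT v).1) _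
  set Δ : ℝ := dK K * (Nf K l * Nf K k.radical) with hΔ
  set W : ℝ := Nf K k * PP T with hW
  set Q : ℝ := ((S.image bl).card : ℝ) * (Nf K κ * PP H) + ((S.image bl).card : ℝ) ^ (1 / 2 : ℝ) *
          (W / (Nf K κ * PP H) ^ 2) with hQ
  have hΔ1 : 1 ≤ Δ := one_le_mul_of_one_le_of_one_le hd (one_le_mul_of_one_le_of_one_le hNl hNr)
  have hW1 : 1 ≤ W := one_le_mul_of_one_le_of_one_le hNk hPT
  have hΔ0 : 0 < Δ := by linarith
  have hW0 : 0 < W := by linarith
  have hQ0 : 0 ≤ Q := by positivity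
  have hS1 : 0 ≤ ∑ q ∈ S, ‖L q.1 (1 / 2 + q.2 * I)‖ ^ 2 := Finset.sum_nonneg fun q _ => by positivity
  have hS2 : 0 ≤ ∑ q ∈ S, ‖L q.1 (1 / 2 + q.2 * I)‖ ^ 12 :=
    Finset.sum_nonneg fun q _ => by positivity
  have hC : C₁ ^ a * C₂ ^ b ≤ (1 + C₁) * (1 + C₂) := by
    have e1 : C₁ ^ a ≤ 1 + C₁ := by
      calc C₁ ^ a ≤ (1 + C₁) ^ a := Real.rpow_le_rpow hC₁ (by linarith) ha0
        _ ≤ (1 + C₁) ^ (1 : ℝ) := Real.rpow_le_rpow_of_exponent_le (by linarith) (by linarith)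
        _ = 1 + C₁ := Real.rpow_one _
    have e2 : C₂ ^ b ≤ 1 + C₂ := by
      calc C₂ ^ b ≤ (1 + C₂) ^ b := Real.rpow_le_rpow hC₂ (by linarith) hb0
        _ ≤ (1 + C₂) ^ (1 : ℝ) := Real.rpow_le_rpow_of_exponent_le (by linarith) (by linarith)
        _ = 1 + C₂ := Real.rpow_one _
    exact mul_le_mul e1 e2 (by positivity) (by positivity)
  have hD : Δ ^ (B₁ * a) * Δ ^ (B₂ * b) ≤ Δ ^ (B₁ + B₂) := by
    rw [← Real.rpow_add hΔ0]
    refine Real.rpow_le_rpow_of_exponent_le hΔ1 ?_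
    have ha1 : a ≤ 1 := by linarith
    have hb1 : b ≤ 1 := by linarith
    nlinarith
  have hWW : W ^ (ε * a) * W ^ ((2 + ε) * b) = W ^ ((p - 2) / 5 + ε) := by
    rw [← Real.rpow_add hW0]
    congr 1
    have e1 : (2 + ε) * b = 2 * b + ε * b := by ring
    have e2 : ε * a + ε * b = ε := by rw [← mul_add, hab, mul_one]
    have e3 : 2 * b = (p - 2) / 5 := by rw [hb]; ring
    linarith
  clear_value Q W Δ
  calc ∑ q ∈ S, ‖L q.1 (1 / 2 + q.2 * I)‖ ^ p
      ≤ (∑ q ∈ S, ‖L q.1 (1 / 2 + q.2 * I)‖ ^ 2) ^ a *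
        (∑ q ∈ S, ‖L q.1 (1 / 2 + q.2 * I)‖ ^ 12) ^ b := h7
    _ ≤ (C₁ * (Δ ^ B₁ * W ^ ε * Q)) ^ a * (C₂ * (Δ ^ B₂ * W ^ (2 + ε))) ^ b := by
        refine mul_le_mul (Real.rpow_le_rpow hS1 h5 ha0) (Real.rpow_le_rpow hS2 h6 hb0)
          (by positivity) (by positivity)
    _ = (C₁ ^ a * C₂ ^ b) * ((Δ ^ (B₁ * a) * Δ ^ (B₂ * b)) *
          (W ^ (ε * a) * W ^ ((2 + ε) * b)) * Q ^ a) := by
        rw [Real.mul_rpow hC₁ (by positivity), Real.mul_rpow (by positivity) hQ0,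
          Real.mul_rpow (by positivity) (by positivity), Real.mul_rpow hC₂ (by positivity),
          Real.mul_rpow (by positivity) (by positivity), ← Real.rpow_mul hΔ0.le,
          ← Real.rpow_mul hW0.le, ← Real.rpow_mul hΔ0.le, ← Real.rpow_mul hW0.le]
        ring
    _ ≤ ((1 + C₁) * (1 + C₂)) * (Δ ^ (B₁ + B₂) * W ^ ((p - 2) / 5 + ε) * Q ^ a) := by
        rw [hWW]
        refine mul_le_mul hC ?_ (by positivity) (by positivity)
        exact mul_le_mul_of_nonneg_right (mul_le_mul_of_nonneg_right hD (by positivity))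
          (by positivity)

end Pool.Agent.H86.DMQ.QH
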